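import Mathlib

/-!
# Height modules

A height module collects what the arithmetic Hodge index conjecture of Beilinson is about: the
rational Chow groups of cycles homologous to zero of a smooth projective variety over a number
field, the operator of intersection with the polarization, and the height pairing.
-/

set_option autoImplicit false

open scoped BigOperators

namespace Beil

universe u

/-- `dim` is the dimension `n` of the variety, `gr i` the group of classes of codimension `i`
homologous to zero (with rational coefficients), `L` the Lefschetz operator of the polarization,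
`ht` the height pairing (real valued, zero between `gr i` and `gr j` unless `i + j = n + 1`; this
is not needed below). -/
structure HeightModule where
  dim : ℕ
  W : Type u
  [acg : AddCommGroup W]
  [mod : Module ℚ W]
  gr : ℤ → Submodule ℚ W
  L : W →ₗ[ℚ] W
  L_mem : ∀ i, ∀ x ∈ gr i, L x ∈ gr (i + 1)
  ht : W →ₗ[ℚ] W →ₗ[ℚ] ℝ
  ht_symm : ∀ x y, ht x y = ht y x
  ht_L : ∀ x y, ht (L x) y = ht x (L y)

namespace HeightModule

attribute [instance] HeightModule.acg HeightModule.mod

variable (D : HeightModule.{u})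

/-- Q1 in codimension `i` -/
def LefschetzAt (i : ℕ) : Prop :=
  Set.BijOn (fun x => (D.L ^ (D.dim + 1 - 2 * i)) x) (D.gr i) (D.gr (D.dim + 1 - i))

/-- Q2 in codimension `i` -/
def IndexAt (i : ℕ) : Prop :=
  ∀ x ∈ D.gr i, x ≠ 0 → (D.L ^ (D.dim + 2 - 2 * i)) x = 0 →
    0 < (-1 : ℝ) ^ i * D.ht x ((D.L ^ (D.dim + 1 - 2 * i)) x)

lemma pow_mem (k : ℕ) (i : ℤ) (x : D.W) (hx : x ∈ D.gr i) : (D.L ^ k) x ∈ D.gr (i + k) := by
  induction k with
  | zero => simpa using hx
  | succ k ih =>
      rw [pow_succ']
      have := D.L_mem _ _ ih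
      simpa [add_assoc] using this

lemma ht_pow (k : ℕ) (x y : D.W) : D.ht ((D.L ^ k) x) y = D.ht x ((D.L ^ k) y) := by
  induction k generalizing y with
  | zero => simp
  | succ k ih =>
      rw [pow_succ', Module.End.mul_apply, D.ht_L, ih, ← Module.End.mul_apply, ← pow_succ, pow_succ']

variable {D}

/-- multiplication by the hyperplane class of `P^N` on `W[h]/(h^(N+1))` -/
def shift {V : Type u} [AddCommGroup V] {N : ℕ} (y : Fin (N + 1) → V) : Fin (N + 1) → V :=
  Fin.cons 0 (Fin.init y)

lemma shift_zero {V : Type u} [AddCommGroup V] {N : ℕ} (y : Fin (N + 1) → V) :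
    shift y 0 = 0 := rfl

lemma shift_succ {V : Type u} [AddCommGroup V] {N : ℕ} (y : Fin (N + 1) → V) (k : Fin N) :
    shift y k.succ = y k.castSucc := rfl

variable (D)

/-- the operator `L + h` on `W[h]/(h^(N+1))` -/
def lefP (N : ℕ) : (Fin (N + 1) → D.W) →ₗ[ℚ] (Fin (N + 1) → D.W) where
  toFun y := fun k => D.L (y k) + shift y k
  map_add' x y := by
    funext k
    refine Fin.cases ?_ (fun k => ?_) k
    · simp [shift_zero]
    · simp only [Pi.add_apply, map_add, shift_succ]
      abel
  map_smul' c y := by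
    funext k
    refine Fin.cases ?_ (fun k => ?_) k
    · simp [shift_zero]
    · simp only [Pi.smul_apply, map_smul, shift_succ, RingHom.id_apply, smul_add]

/-- the height pairing on `W[h]/(h^(N+1))` -/
noncomputable def htP (N : ℕ) :
    (Fin (N + 1) → D.W) →ₗ[ℚ] (Fin (N + 1) → D.W) →ₗ[ℚ] ℝ :=
  LinearMap.mk₂ ℚ (fun x y => ∑ k, D.ht (x k) (y (Fin.rev k)))
    (by intro x y z; simp [Finset.sum_add_distrib])
    (by intro c x y; simp [Finset.smul_sum])
    (by intro x y z; simp [Finset.sum_add_distrib])
    (by intro c x y; simp [Finset.smul_sum])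

lemma htP_apply (N : ℕ) (x y : Fin (N + 1) → D.W) :
    D.htP N x y = ∑ k, D.ht (x k) (y (Fin.rev k)) := rfl

/-- the grading of `W[h]/(h^(N+1))`, `h` in degree one -/
def grP (N : ℕ) (j : ℤ) : Submodule ℚ (Fin (N + 1) → D.W) where
  carrier := {y | ∀ k : Fin (N + 1), y k ∈ D.gr (j - (k : ℕ))}
  add_mem' := fun {x y} hx hy k => add_mem (hx k) (hy k)
  zero_mem' := fun k => zero_mem _
  smul_mem' := fun c x hx k => Submodule.smul_mem _ c (hx k)

lemma mem_grP {N : ℕ} {j : ℤ} {y : Fin (N + 1) → D.W} :
    y ∈ D.grP N j ↔ ∀ k : Fin (N + 1), y k ∈ D.gr (j - (k : ℕ)) := Iff.rfl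

lemma lefP_mem (N : ℕ) (j : ℤ) (y : Fin (N + 1) → D.W) (hy : y ∈ D.grP N j) :
    D.lefP N y ∈ D.grP N (j + 1) := by
  intro k
  have h1 : D.L (y k) ∈ D.gr (j + 1 - (k : ℕ)) := by
    have := D.L_mem _ _ (hy k)
    have e : j - (k : ℕ) + 1 = j + 1 - (k : ℕ) := by ring
    rwa [e] at this
  refine add_mem h1 ?_
  refine Fin.cases ?_ (fun k => ?_) k
  · exact zero_mem _
  · rw [shift_succ]
    have := hy k.castSucc
    have e : j - ((k.castSucc : Fin (N + 1)) : ℕ) = j + 1 - ((k.succ : Fin (N + 1)) : ℕ) := by
      simp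
    rwa [e] at this

/-- the height module of `X × P^N` with the polarization `L + h` (projective bundle formula: the
coordinate with index `k` is the coefficient of `h^k`) -/
noncomputable def timesP (N : ℕ) : HeightModule.{u} where
  dim := D.dim + N
  W := Fin (N + 1) → D.W
  gr j := D.grP N j
  L := D.lefP N
  L_mem := D.lefP_mem N
  ht := D.htP N
  ht_symm := by
    intro x y
    rw [htP_apply, htP_apply]
    rw [← Equiv.sum_comp Fin.revPerm]
    refine Finset.sum_congr rfl fun k _ => ?_
    simp only [Fin.revPerm_apply, Fin.rev_rev]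
    exact D.ht_symm _ _
  ht_L := by
    intro x y
    rw [htP_apply, htP_apply]
    change ∑ k, D.ht (D.L (x k) + shift x k) (y (Fin.rev k))
      = ∑ k, D.ht (x k) (D.L (y (Fin.rev k)) + shift y (Fin.rev k))
    simp only [map_add, LinearMap.add_apply, Finset.sum_add_distrib]
    congr 1
    · exact Finset.sum_congr rfl fun k _ => D.ht_L _ _
    · rw [Fin.sum_univ_succ, Fin.sum_univ_castSucc]
      simp [shift_zero, shift_succ, Fin.rev_succ, Fin.rev_castSucc]

end HeightModule

end Beil
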