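import Mathlib
import Pool.Agent.Helper70.Beil.Defs

/-!
# Independence of the polarization in the middle codimension
-/

set_option autoImplicit false

open scoped BigOperators

namespace Beil

universe u

/-- a finite dimensional subspace of dimension larger than the codimension of `T` meets `T` -/
lemma exists_mem_inf {W : Type u} [AddCommGroup W] [Module ℚ W] (V S T U : Submodule ℚ W)
    [FiniteDimensional ℚ S] [FiniteDimensional ℚ U] (hS : S ≤ V) (hV : V ≤ T ⊔ U)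
    (hd : Module.finrank ℚ U < Module.finrank ℚ S) : ∃ x ∈ S, x ∈ T ∧ x ≠ 0 := by
  set F : Submodule ℚ W := S ⊔ U with hF
  have h1 : F ≤ (F ⊓ T) ⊔ U := by
    intro x hx
    have hx' : ∃ t ∈ T, ∃ w ∈ U, t + w = x := by
      obtain ⟨s, hs, w, hw, rfl⟩ := Submodule.mem_sup.1 hx
      obtain ⟨t, ht, w', hw', h⟩ := Submodule.mem_sup.1 (hV (hS hs))
      exact ⟨t, ht, w' + w, add_mem hw' hw, by rw [← h]; abel⟩
    obtain ⟨t, ht, w, hw, rfl⟩ := hx'
    refine Submodule.add_mem_sup ⟨?_, ht⟩ hw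
    have h2 : w ∈ F := Submodule.mem_sup_right hw
    have := sub_mem hx h2
    simpa using this
  have h2 : Module.finrank ℚ F ≤ Module.finrank ℚ (F ⊓ T : Submodule ℚ W) + Module.finrank ℚ U := by
    calc Module.finrank ℚ F ≤ Module.finrank ℚ ((F ⊓ T) ⊔ U : Submodule ℚ W) :=
          Submodule.finrank_mono h1
      _ ≤ _ := Submodule.finrank_add_le_finrank_add_finrank _ _
  have h3 := Submodule.finrank_sup_add_finrank_inf_eq S (F ⊓ T)
  have h4 : Module.finrank ℚ (S ⊔ (F ⊓ T) : Submodule ℚ W) ≤ Module.finrank ℚ F :=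
    Submodule.finrank_mono (sup_le (le_sup_left) inf_le_left)
  have h5 : 0 < Module.finrank ℚ (S ⊓ (F ⊓ T) : Submodule ℚ W) := by omega
  have h6 : (S ⊓ (F ⊓ T) : Submodule ℚ W) ≠ ⊥ := by
    intro h
    rw [h, finrank_bot] at h5
    exact lt_irrefl _ h5
  obtain ⟨x, hx, hx0⟩ := (Submodule.ne_bot_iff _).1 h6
  exact ⟨x, hx.1, hx.2.2, hx0⟩

namespace HeightModule

/-- the height module with another polarization -/
def withL (D : HeightModule.{u}) (L' : D.W →ₗ[ℚ] D.W)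
    (h1 : ∀ i, ∀ x ∈ D.gr i, L' x ∈ D.gr (i + 1))
    (h2 : ∀ x y, D.ht (L' x) y = D.ht x (L' y)) : HeightModule.{u} :=
  { D with
    L := L'
    L_mem := h1
    ht_L := h2 }

variable (D : HeightModule.{u})

/-- the form of codimension `i` -/
noncomputable def q (i : ℕ) (x y : D.W) : ℝ := D.ht x ((D.L ^ (D.dim + 1 - 2 * i)) y)

/-- expected dimension of the maximal subspaces on which `(-1)^m` times the form is negative -/
noncomputable def negDim (m : ℕ) : ℕ → ℕ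
  | 0 => 0
  | (i + 1) => negDim m i +
      if Even (i + 1 + m) then 0
      else Module.finrank ℚ (D.gr ((i + 1 : ℕ) : ℤ)) - Module.finrank ℚ (D.gr (i : ℤ))

/-- decomposition of `gr i` for the form of codimension `i` -/
def HasDecomp (m i : ℕ) : Prop :=
  ∃ A B : Submodule ℚ D.W, A ⊔ B = D.gr (i : ℤ) ∧
    (∀ x ∈ A, x ≠ 0 → 0 < (-1 : ℝ) ^ m * D.q i x x) ∧
    (∀ x ∈ B, x ≠ 0 → (-1 : ℝ) ^ m * D.q i x x < 0) ∧
    (∀ x ∈ A, ∀ y ∈ B, D.q i x y = 0) ∧ Module.finrank ℚ B = D.negDim m i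

lemma q_L (i : ℕ) (hi : 2 * (i + 1) ≤ D.dim + 1) (x y : D.W) :
    D.q (i + 1) (D.L x) (D.L y) = D.q i x y := by
  unfold q
  rw [D.ht_L, ← Module.End.mul_apply, ← Module.End.mul_apply]
  have e : D.dim + 1 - 2 * i = D.dim + 1 - 2 * (i + 1) + 1 + 1 := by omega
  rw [e, ← pow_succ', ← pow_succ]

lemma q_L_prim (i : ℕ) (hi : 2 * (i + 1) ≤ D.dim + 1) (x p : D.W)
    (hp : (D.L ^ (D.dim + 2 - 2 * (i + 1))) p = 0) : D.q (i + 1) (D.L x) p = 0 := by
  unfold q
  rw [D.ht_L, ← Module.End.mul_apply]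
  have e : D.dim + 2 - 2 * (i + 1) = D.dim + 1 - 2 * (i + 1) + 1 := by omega
  rw [← pow_succ', ← e, hp, map_zero]

lemma q_symm (i : ℕ) (x y : D.W) : D.q i x y = D.q i y x := by
  unfold q
  rw [← ht_pow, D.ht_symm]

/-- the primitive classes -/
def prim (i : ℕ) : Submodule ℚ D.W :=
  D.gr (i : ℤ) ⊓ LinearMap.ker (D.L ^ (D.dim + 2 - 2 * i))

lemma mem_prim {i : ℕ} {x : D.W} :
    x ∈ D.prim i ↔ x ∈ D.gr (i : ℤ) ∧ (D.L ^ (D.dim + 2 - 2 * i)) x = 0 := Iff.rfl

/-- Lefschetz decomposition, one step -/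
lemma sup_prim (i : ℕ) (hi : 2 * (i + 1) ≤ D.dim + 1) (h1 : D.LefschetzAt i) :
    (D.gr (i : ℤ)).map D.L ⊔ D.prim (i + 1) = D.gr ((i + 1 : ℕ) : ℤ) := by
  have e0 : ((i + 1 : ℕ) : ℤ) = (i : ℤ) + 1 := by push_cast; rfl
  apply le_antisymm
  · refine sup_le ?_ inf_le_left
    rintro _ ⟨x, hx, rfl⟩
    rw [e0]
    exact D.L_mem _ _ hx
  · intro v hv
    have hv' : (D.L ^ (D.dim + 2 - 2 * (i + 1))) v ∈ D.gr (D.dim + 1 - i) := by
      have := D.pow_mem (D.dim + 2 - 2 * (i + 1)) _ v hv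
      have e : ((i + 1 : ℕ) : ℤ) + ((D.dim + 2 - 2 * (i + 1) : ℕ) : ℤ) = D.dim + 1 - i := by
        rw [Nat.cast_sub (by omega)]
        push_cast
        ring
      rwa [e] at this
    obtain ⟨x, hx, hxv⟩ := h1.2.2 hv'
    have hxv' : (D.L ^ (D.dim + 1 - 2 * i)) x = (D.L ^ (D.dim + 2 - 2 * (i + 1))) v := hxv
    have e : D.dim + 1 - 2 * i = D.dim + 2 - 2 * (i + 1) + 1 := by omega
    have h2 : v - D.L x ∈ D.prim (i + 1) := by
      rw [mem_prim]
      refine ⟨sub_mem hv ?_, ?_⟩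
      · rw [e0]
        exact D.L_mem _ _ hx
      · rw [map_sub, ← hxv', e, pow_succ, Module.End.mul_apply, sub_self]
    have h3 := Submodule.add_mem_sup (Submodule.mem_map_of_mem (f := D.L) hx) h2
    simpa using h3

lemma L_inj (i : ℕ) (hi : 2 * (i + 1) ≤ D.dim + 1) (h1 : D.LefschetzAt i) (x : D.W)
    (hx : x ∈ D.gr (i : ℤ)) (h : (D.L ^ (D.dim + 1 - 2 * i)) x = 0) : x = 0 := by
  refine h1.2.1 hx (zero_mem _) ?_
  simp only [map_zero]
  exact h

lemma L_inj' (i : ℕ) (hi : 2 * (i + 1) ≤ D.dim + 1) (h1 : D.LefschetzAt i) (x : D.W)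
    (hx : x ∈ D.gr (i : ℤ)) (h : D.L x = 0) : x = 0 := by
  refine D.L_inj i hi h1 x hx ?_
  have e : D.dim + 1 - 2 * i = D.dim - 2 * i + 1 := by omega
  rw [e, pow_succ, Module.End.mul_apply, h, map_zero]

lemma finrank_map_L (i : ℕ) (hi : 2 * (i + 1) ≤ D.dim + 1) (h1 : D.LefschetzAt i)
    (B : Submodule ℚ D.W) (hB : B ≤ D.gr (i : ℤ)) :
    Module.finrank ℚ (B.map D.L) = Module.finrank ℚ B := by
  have : Function.Injective (D.L.domRestrict B) := by
    rw [injective_iff_map_eq_zero]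
    intro x hx
    exact Subtype.ext (D.L_inj' i hi h1 x (hB x.2) hx)
  have h2 := LinearMap.finrank_range_of_inj this
  rw [LinearMap.range_domRestrict] at h2
  exact h2

lemma map_inf_prim (i : ℕ) (hi : 2 * (i + 1) ≤ D.dim + 1) (h1 : D.LefschetzAt i) :
    (D.gr (i : ℤ)).map D.L ⊓ D.prim (i + 1) = ⊥ := by
  rw [eq_bot_iff]
  rintro _ ⟨⟨x, hx, rfl⟩, hp⟩
  have h2 := (D.mem_prim.1 hp).2
  have e : D.dim + 1 - 2 * i = D.dim + 2 - 2 * (i + 1) + 1 := by omega
  have h3 : (D.L ^ (D.dim + 1 - 2 * i)) x = 0 := by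
    rw [e, pow_succ, Module.End.mul_apply]
    exact h2
  rw [D.L_inj i hi h1 x hx h3, map_zero]
  exact zero_mem _

lemma finrank_prim (i : ℕ) (hi : 2 * (i + 1) ≤ D.dim + 1) (h1 : D.LefschetzAt i)
    [FiniteDimensional ℚ (D.gr ((i + 1 : ℕ) : ℤ))] :
    Module.finrank ℚ (D.prim (i + 1))
      = Module.finrank ℚ (D.gr ((i + 1 : ℕ) : ℤ)) - Module.finrank ℚ (D.gr (i : ℤ)) := by
  have h2 := D.sup_prim i hi h1
  have hle1 : (D.gr (i : ℤ)).map D.L ≤ D.gr ((i + 1 : ℕ) : ℤ) := by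
    rw [← h2]; exact le_sup_left
  have hle2 : D.prim (i + 1) ≤ D.gr ((i + 1 : ℕ) : ℤ) := by
    rw [← h2]; exact le_sup_right
  have : FiniteDimensional ℚ ((D.gr (i : ℤ)).map D.L) :=
    Submodule.finiteDimensional_of_le hle1
  have : FiniteDimensional ℚ (D.prim (i + 1)) := Submodule.finiteDimensional_of_le hle2
  have h3 := Submodule.finrank_sup_add_finrank_inf_eq ((D.gr (i : ℤ)).map D.L) (D.prim (i + 1))
  rw [h2, D.map_inf_prim i hi h1, finrank_bot, D.finrank_map_L i hi h1 _ le_rfl] at h3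
  omega

lemma neg_one_pow_succ_cases (i m : ℕ) : (Even (i + m) ∧ (-1 : ℝ) ^ m = (-1) ^ i) ∨
    (¬ Even (i + m) ∧ (-1 : ℝ) ^ m = -(-1) ^ i) := by
  rcases Nat.even_or_odd i with hi | hi <;> rcases Nat.even_or_odd m with hm | hm
  · left; exact ⟨hi.add hm, by rw [hi.neg_one_pow, hm.neg_one_pow]⟩
  · right
    refine ⟨Nat.not_even_iff_odd.2 (hi.add_odd hm), ?_⟩
    rw [hi.neg_one_pow, hm.neg_one_pow]
  · right
    refine ⟨Nat.not_even_iff_odd.2 (hi.add_even hm), ?_⟩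
    rw [hi.neg_one_pow, hm.neg_one_pow]
    norm_num
  · left; exact ⟨hi.add_odd hm, by rw [hi.neg_one_pow, hm.neg_one_pow]⟩

/-- the induction step -/
lemma decomp_succ (m i : ℕ) (hi : 2 * (i + 1) ≤ D.dim + 1) (h1 : D.LefschetzAt i)
    (h2 : D.IndexAt (i + 1)) [FiniteDimensional ℚ (D.gr ((i + 1 : ℕ) : ℤ))]
    (h : D.HasDecomp m i) : D.HasDecomp m (i + 1) := by
  obtain ⟨A, B, hAB, hA, hB, hAB0, hd⟩ := h
  have hAle : A ≤ D.gr (i : ℤ) := by rw [← hAB]; exact le_sup_left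
  have hBle : B ≤ D.gr (i : ℤ) := by rw [← hAB]; exact le_sup_right
  have hsup := D.sup_prim i hi h1
  rw [← hAB, Submodule.map_sup] at hsup
  have hq : ∀ p ∈ D.prim (i + 1), p ≠ 0 → 0 < (-1 : ℝ) ^ (i + 1) * D.q (i + 1) p p := by
    intro p hp hp0
    exact h2 p (D.mem_prim.1 hp).1 hp0 (D.mem_prim.1 hp).2
  have horth : ∀ x, ∀ p ∈ D.prim (i + 1), D.q (i + 1) (D.L x) p = 0 := fun x p hp =>
    D.q_L_prim i hi x p (D.mem_prim.1 hp).2
  have hadd : ∀ x p, p ∈ D.prim (i + 1) →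
      D.q (i + 1) (D.L x + p) (D.L x + p) = D.q i x x + D.q (i + 1) p p := by
    intro x p hp
    have e1 : D.q (i + 1) (D.L x + p) (D.L x + p) = D.q (i + 1) (D.L x) (D.L x)
        + D.q (i + 1) (D.L x) p + (D.q (i + 1) p (D.L x) + D.q (i + 1) p p) := by
      unfold q
      simp only [map_add, LinearMap.add_apply]
      ring
    rw [e1, horth x p hp, D.q_symm _ p (D.L x), horth x p hp, D.q_L i hi]
    ring
  have hB1 : Module.finrank ℚ (B.map D.L) = D.negDim m i := by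
    rw [D.finrank_map_L i hi h1 B hBle, hd]
  rcases neg_one_pow_succ_cases (i + 1) m with ⟨hev, hs⟩ | ⟨hev, hs⟩
  · refine ⟨A.map D.L ⊔ D.prim (i + 1), B.map D.L, ?_, ?_, ?_, ?_, ?_⟩
    · rw [← hsup]
      ac_rfl
    · intro x hx hx0
      obtain ⟨_, ⟨a, ha, rfl⟩, p, hp, rfl⟩ := Submodule.mem_sup.1 hx
      rw [hadd a p hp, mul_add]
      by_cases ha0 : a = 0
      · have hp0 : p ≠ 0 := by
          intro h0
          apply hx0
          rw [ha0, h0, map_zero, add_zero]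
        have := hq p hp hp0
        rw [ha0, hs]
        unfold q at this ⊢
        simpa using this
      · have := hA a ha ha0
        by_cases hp0 : p = 0
        · rw [hp0]
          unfold q at this ⊢
          simpa using this
        · have h3 := hq p hp hp0
          rw [← hs] at h3
          linarith
    · rintro _ ⟨b, hb, rfl⟩ hb0
      rw [D.q_L i hi]
      refine hB b hb ?_
      rintro rfl
      exact hb0 (map_zero _)
    · intro x hx y hy
      obtain ⟨_, ⟨a, ha, rfl⟩, p, hp, rfl⟩ := Submodule.mem_sup.1 hx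
      obtain ⟨b, hb, rfl⟩ := hy
      have e1 : D.q (i + 1) (D.L a + p) (D.L b) = D.q (i + 1) (D.L a) (D.L b)
          + D.q (i + 1) p (D.L b) := by
        unfold q
        simp only [map_add, LinearMap.add_apply]
      rw [e1, D.q_L i hi, hAB0 a ha b hb, D.q_symm, horth b p hp, add_zero]
    · rw [hB1]
      change _ = D.negDim m i + _
      rw [if_pos hev, add_zero]
  · refine ⟨A.map D.L, B.map D.L ⊔ D.prim (i + 1), ?_, ?_, ?_, ?_, ?_⟩
    · rw [← hsup]
      ac_rfl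
    · rintro _ ⟨b, hb, rfl⟩ hb0
      rw [D.q_L i hi]
      refine hA b hb ?_
      rintro rfl
      exact hb0 (map_zero _)
    · intro x hx hx0
      obtain ⟨_, ⟨a, ha, rfl⟩, p, hp, rfl⟩ := Submodule.mem_sup.1 hx
      rw [hadd a p hp, mul_add]
      by_cases ha0 : a = 0
      · have hp0 : p ≠ 0 := by
          intro h0
          apply hx0
          rw [ha0, h0, map_zero, add_zero]
        have := hq p hp hp0
        rw [ha0, hs]
        unfold q at this ⊢
        simpa using this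
      · have := hB a ha ha0
        by_cases hp0 : p = 0
        · rw [hp0]
          unfold q at this ⊢
          simpa using this
        · have h3 := hq p hp hp0
          rw [hs] at this ⊢
          linarith
    · intro x hx y hy
      obtain ⟨a, ha, rfl⟩ := hx
      obtain ⟨_, ⟨b, hb, rfl⟩, p, hp, rfl⟩ := Submodule.mem_sup.1 hy
      have e1 : D.q (i + 1) (D.L a) (D.L b + p) = D.q (i + 1) (D.L a) (D.L b)
          + D.q (i + 1) (D.L a) p := by
        unfold q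
        simp only [map_add]
      rw [e1, D.q_L i hi, hAB0 a ha b hb, horth a p hp, add_zero]
    · have hle1 : B.map D.L ≤ D.gr ((i + 1 : ℕ) : ℤ) := by
        rw [← hsup]
        exact le_sup_of_le_left le_sup_right
      have hle2 : D.prim (i + 1) ≤ D.gr ((i + 1 : ℕ) : ℤ) := by
        rw [← hsup]; exact le_sup_right
      have : FiniteDimensional ℚ (B.map D.L) := Submodule.finiteDimensional_of_le hle1
      have : FiniteDimensional ℚ (D.prim (i + 1)) := Submodule.finiteDimensional_of_le hle2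
      have h3 := Submodule.finrank_sup_add_finrank_inf_eq (B.map D.L) (D.prim (i + 1))
      have h4 : B.map D.L ⊓ D.prim (i + 1) = ⊥ := by
        rw [eq_bot_iff, ← D.map_inf_prim i hi h1]
        exact inf_le_inf_right _ (Submodule.map_mono hBle)
      rw [h4, finrank_bot, hB1, D.finrank_prim i hi h1] at h3
      change _ = D.negDim m i + _
      rw [if_neg hev]
      omega

lemma decomp (m : ℕ) (h0 : D.gr 0 = ⊥) (hm : D.dim + 1 = 2 * m)
    (hfin : ∀ i < m, FiniteDimensional ℚ (D.gr (i : ℤ)))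
    (h1 : ∀ i < m, D.LefschetzAt i) (h2 : ∀ i < m, D.IndexAt i) :
    ∀ i < m, D.HasDecomp m i := by
  intro i
  induction i with
  | zero =>
      intro _
      refine ⟨⊥, ⊥, ?_, ?_, ?_, ?_, ?_⟩
      · rw [bot_sup_eq, Nat.cast_zero, h0]
      · intro x hx hx0
        exact absurd ((Submodule.mem_bot ℚ).1 hx) hx0
      · intro x hx hx0
        exact absurd ((Submodule.mem_bot ℚ).1 hx) hx0
      · intro x hx y _
        rw [(Submodule.mem_bot ℚ).1 hx]
        unfold q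
        simp
      · rw [finrank_bot]
        rfl
  | succ i ih =>
      intro hi
      have := hfin (i + 1) hi
      exact D.decomp_succ m i (by omega) (h1 i (by omega)) (h2 (i + 1) hi) (ih (by omega))

/-- a negative subspace in the middle codimension -/
lemma neg_space (m : ℕ) (h0 : D.gr 0 = ⊥) (hm : D.dim + 1 = 2 * (m + 1))
    (hfin : ∀ i < m + 1, FiniteDimensional ℚ (D.gr (i : ℤ)))
    (h1 : ∀ i < m + 1, D.LefschetzAt i) (h2 : ∀ i < m + 1, D.IndexAt i) :
    ∃ B : Submodule ℚ D.W, B ≤ D.gr ((m + 1 : ℕ) : ℤ) ∧ FiniteDimensional ℚ B ∧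
      Module.finrank ℚ B = D.negDim (m + 1) m ∧
      (∀ x ∈ B, (-1 : ℝ) ^ (m + 1) * D.ht x x ≤ 0) ∧
      (∀ x ∈ B, ∀ v, D.L v = 0 → D.ht x v = 0) ∧ (∀ x ∈ B, D.L x = 0 → x = 0) := by
  obtain ⟨A, B, hAB, hA, hB, hAB0, hd⟩ := D.decomp (m + 1) h0 hm hfin h1 h2 m (by omega)
  have hmm : 2 * (m + 1) ≤ D.dim + 1 := by omega
  have hBle : B ≤ D.gr (m : ℤ) := by rw [← hAB]; exact le_sup_right
  have := hfin m (by omega)
  have hBfin : FiniteDimensional ℚ B := Submodule.finiteDimensional_of_le hBle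
  refine ⟨B.map D.L, ?_, inferInstance, ?_, ?_, ?_, ?_⟩
  · rintro _ ⟨x, hx, rfl⟩
    have h3 := D.L_mem _ _ (hBle hx)
    have e2 : ((m + 1 : ℕ) : ℤ) = (m : ℤ) + 1 := by push_cast; rfl
    rw [e2]
    exact h3
  · rw [D.finrank_map_L m hmm (h1 m (by omega)) B hBle, hd]
  · rintro _ ⟨x, hx, rfl⟩
    have h3 : D.ht (D.L x) (D.L x) = D.q m x x := by
      rw [← D.q_L m hmm x x]
      unfold q
      have e2 : D.dim + 1 - 2 * (m + 1) = 0 := by omega
      rw [e2, pow_zero, Module.End.one_apply]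
    rw [h3]
    by_cases hx0 : x = 0
    · rw [hx0]
      unfold q
      simp
    · exact (hB x hx hx0).le
  · rintro _ ⟨x, hx, rfl⟩ v hv
    rw [D.ht_L, hv, map_zero]
  · rintro _ ⟨x, hx, rfl⟩ hv
    have h3 : (D.L ^ (D.dim + 1 - 2 * m)) x = 0 := by
      have e2 : D.dim + 1 - 2 * m = 2 := by omega
      rw [e2, pow_two, Module.End.mul_apply, hv]
    rw [D.L_inj m hmm (h1 m (by omega)) x (hBle hx) h3, map_zero]

/-- a positive subspace of the right codimension in the middle codimension -/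
lemma pos_space (m : ℕ) (h0 : D.gr 0 = ⊥) (hm : D.dim + 1 = 2 * (m + 1))
    (hfin : ∀ i < m + 1, FiniteDimensional ℚ (D.gr (i : ℤ)))
    (h1 : ∀ i < m + 1, D.LefschetzAt i) (h2 : ∀ i < m + 1, D.IndexAt i)
    (h : D.IndexAt (m + 1)) :
    ∃ T U : Submodule ℚ D.W, D.gr ((m + 1 : ℕ) : ℤ) ≤ T ⊔ U ∧ FiniteDimensional ℚ U ∧
      Module.finrank ℚ U = D.negDim (m + 1) m ∧
      (∀ x ∈ T, x ≠ 0 → 0 < (-1 : ℝ) ^ (m + 1) * D.ht x x) := by
  obtain ⟨A, B, hAB, hA, hB, hAB0, hd⟩ := D.decomp (m + 1) h0 hm hfin h1 h2 m (by omega)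
  have hmm : 2 * (m + 1) ≤ D.dim + 1 := by omega
  have hBle : B ≤ D.gr (m : ℤ) := by rw [← hAB]; exact le_sup_right
  have := hfin m (by omega)
  have hBfin : FiniteDimensional ℚ B := Submodule.finiteDimensional_of_le hBle
  have e2 : D.dim + 1 - 2 * (m + 1) = 0 := by omega
  have e3 : D.dim + 2 - 2 * (m + 1) = 1 := by omega
  have hsup := D.sup_prim m hmm (h1 m (by omega))
  rw [← hAB, Submodule.map_sup] at hsup
  refine ⟨A.map D.L ⊔ D.prim (m + 1), B.map D.L, ?_, inferInstance, ?_, ?_⟩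
  · rw [← hsup]
    refine sup_le (sup_le ?_ ?_) ?_
    · exact le_sup_of_le_left le_sup_left
    · exact le_sup_right
    · exact le_sup_of_le_left le_sup_right
  · rw [D.finrank_map_L m hmm (h1 m (by omega)) B hBle, hd]
  · intro w hw hw0
    obtain ⟨_, ⟨a, ha, rfl⟩, k, hk, rfl⟩ := Submodule.mem_sup.1 hw
    have hkL : D.L k = 0 := by
      have := (D.mem_prim.1 hk).2
      rw [e3, pow_one] at this
      exact this
    have hkpos : k ≠ 0 → 0 < (-1 : ℝ) ^ (m + 1) * D.ht k k := by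
      intro hk0
      have := h k (D.mem_prim.1 hk).1 hk0 (D.mem_prim.1 hk).2
      rw [e2, pow_zero, Module.End.one_apply] at this
      exact this
    have h3 : D.ht (D.L a) k = 0 := by rw [D.ht_L, hkL, map_zero]
    have h5 : D.ht (D.L a) (D.L a) = D.q m a a := by
      rw [← D.q_L m hmm a a]
      unfold q
      rw [e2, pow_zero, Module.End.one_apply]
    have h4 : D.ht (D.L a + k) (D.L a + k) = D.q m a a + D.ht k k := by
      simp only [map_add, LinearMap.add_apply]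
      rw [D.ht_symm k (D.L a), h3, h5]
      ring
    rw [h4, mul_add]
    by_cases ha0 : a = 0
    · have hk0 : k ≠ 0 := by
        rintro rfl
        apply hw0
        rw [ha0, map_zero, add_zero]
      have := hkpos hk0
      rw [ha0]
      unfold q
      simpa using this
    · have h6 := hA a ha ha0
      by_cases hk0 : k = 0
      · rw [hk0]
        simpa using h6
      · have := hkpos hk0
        linarith

/-- comparison of two symmetric forms, the final step -/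
lemma pos_of_spaces {W : Type u} [AddCommGroup W] [Module ℚ W] (V : Submodule ℚ W)
    (ht : W →ₗ[ℚ] W →ₗ[ℚ] ℝ) (hs : ∀ x y, ht x y = ht y x) (ε : ℝ) (B T U : Submodule ℚ W)
    [FiniteDimensional ℚ B] [FiniteDimensional ℚ U] (hB : B ≤ V) (hV : V ≤ T ⊔ U)
    (hd : Module.finrank ℚ U ≤ Module.finrank ℚ B) (hneg : ∀ x ∈ B, ε * ht x x ≤ 0)
    (hpos : ∀ x ∈ T, x ≠ 0 → 0 < ε * ht x x) (v : W) (hv : v ∈ V) (hvB : v ∉ B)
    (horth : ∀ x ∈ B, ht x v = 0) : 0 < ε * ht v v := by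
  by_contra hcon
  push Not at hcon
  have hlt : Module.finrank ℚ U < Module.finrank ℚ (B ⊔ Submodule.span ℚ {v} : Submodule ℚ W) := by
    refine lt_of_le_of_lt hd (Submodule.finrank_lt_finrank_of_lt ?_)
    refine lt_of_le_of_ne le_sup_left ?_
    intro heq
    apply hvB
    rw [heq]
    exact Submodule.mem_sup_right (Submodule.mem_span_singleton_self v)
  have hSle : B ⊔ Submodule.span ℚ {v} ≤ V := by
    refine sup_le hB ?_
    rw [Submodule.span_singleton_le_iff_mem]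
    exact hv
  obtain ⟨w, hwS, hwT, hw0⟩ := exists_mem_inf V (B ⊔ Submodule.span ℚ {v}) T U hSle hV hlt
  have h1 := hpos w hwT hw0
  obtain ⟨b, hb, s, hs', rfl⟩ := Submodule.mem_sup.1 hwS
  obtain ⟨c, rfl⟩ := Submodule.mem_span_singleton.1 hs'
  have h4 : ht (b + c • v) (b + c • v) = ht b b + (c : ℝ) ^ 2 * ht v v := by
    simp only [map_add, LinearMap.add_apply, map_smul, LinearMap.smul_apply]
    rw [hs v b, horth b hb, Rat.smul_def, Rat.smul_def, Rat.smul_def]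
    ring
  have h7 : ε * ((c : ℝ) ^ 2 * ht v v) ≤ 0 := by
    have h9 := mul_nonpos_of_nonneg_of_nonpos (sq_nonneg (c : ℝ)) hcon
    calc ε * ((c : ℝ) ^ 2 * ht v v) = (c : ℝ) ^ 2 * (ε * ht v v) := by ring
      _ ≤ 0 := h9
  have h8 := hneg b hb
  rw [h4, mul_add] at h1
  linarith

lemma negDim_withL (L' : D.W →ₗ[ℚ] D.W) (hL1 : ∀ i, ∀ x ∈ D.gr i, L' x ∈ D.gr (i + 1))
    (hL2 : ∀ x y, D.ht (L' x) y = D.ht x (L' y)) (m i : ℕ) :
    (D.withL L' hL1 hL2).negDim m i = D.negDim m i := by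
  induction i with
  | zero => rfl
  | succ i ih =>
      change (D.withL L' hL1 hL2).negDim m i + _ = D.negDim m i + _
      rw [ih]
      rfl

/-- `Q2` in the middle codimension does not depend on the polarization -/
theorem index_of_index (L' : D.W →ₗ[ℚ] D.W) (hL1 : ∀ i, ∀ x ∈ D.gr i, L' x ∈ D.gr (i + 1))
    (hL2 : ∀ x y, D.ht (L' x) y = D.ht x (L' y)) (m : ℕ) (h0 : D.gr 0 = ⊥)
    (hm : D.dim + 1 = 2 * m) (hfin : ∀ i < m, FiniteDimensional ℚ (D.gr (i : ℤ)))
    (h1 : ∀ i < m, D.LefschetzAt i) (h2 : ∀ i < m, D.IndexAt i)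
    (h1' : ∀ i < m, (D.withL L' hL1 hL2).LefschetzAt i)
    (h2' : ∀ i < m, (D.withL L' hL1 hL2).IndexAt i)
    (h : D.IndexAt m) : (D.withL L' hL1 hL2).IndexAt m := by
  rcases Nat.eq_zero_or_pos m with rfl | hmpos
  · omega
  obtain ⟨m, rfl⟩ : ∃ k, m = k + 1 := ⟨m - 1, by omega⟩
  obtain ⟨B, hBle, hBfin, hBd, hBneg, hBorth, hBL⟩ : ∃ B : Submodule ℚ D.W,
      B ≤ D.gr ((m + 1 : ℕ) : ℤ) ∧ FiniteDimensional ℚ B ∧
      Module.finrank ℚ B = (D.withL L' hL1 hL2).negDim (m + 1) m ∧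
      (∀ x ∈ B, (-1 : ℝ) ^ (m + 1) * D.ht x x ≤ 0) ∧
      (∀ x ∈ B, ∀ v, L' v = 0 → D.ht x v = 0) ∧ (∀ x ∈ B, L' x = 0 → x = 0) :=
    (D.withL L' hL1 hL2).neg_space m h0 hm hfin h1' h2'
  obtain ⟨T, U, hTU, hUfin, hUd, hTpos⟩ := D.pos_space m h0 hm hfin h1 h2 h
  rw [negDim_withL] at hBd
  have main : ∀ v : D.W, v ∈ D.gr ((m + 1 : ℕ) : ℤ) → v ≠ 0 → L' v = 0 →
      0 < (-1 : ℝ) ^ (m + 1) * D.ht v v := by
    intro v hv hv0 hLv
    refine pos_of_spaces (D.gr ((m + 1 : ℕ) : ℤ)) D.ht D.ht_symm _ B T U hBle hTU ?_ hBneg hTpos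
      v hv ?_ (fun x hx => hBorth x hx v hLv)
    · rw [hUd, hBd]
    · intro hvB
      exact hv0 (hBL v hvB hLv)
  intro v hv hv0 hLv
  have e0 : (D.withL L' hL1 hL2).dim + 2 - 2 * (m + 1) = 1 := by
    change D.dim + 2 - 2 * (m + 1) = 1
    omega
  have e1 : (D.withL L' hL1 hL2).dim + 1 - 2 * (m + 1) = 0 := by
    change D.dim + 1 - 2 * (m + 1) = 0
    omega
  rw [e0, pow_one] at hLv
  rw [e1, pow_zero, Module.End.one_apply]
  exact main v hv hv0 hLv

end HeightModule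

end Beil
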