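import Mathlib
import Pool.Agent.Helper70.Beil.Defs

/-!
# Reduction to the middle codimension by products with projective spaces
-/

set_option autoImplicit false

open scoped BigOperators

namespace Beil

universe u

namespace HeightModule

variable (D : HeightModule.{u})

lemma lefP_zero (N : ℕ) (y : Fin (N + 1) → D.W) : D.lefP N y 0 = D.L (y 0) := by
  change D.L (y 0) + shift y 0 = _
  rw [shift_zero, add_zero]

lemma lefP_succ (N : ℕ) (y : Fin (N + 1) → D.W) (k : Fin N) :
    D.lefP N y k.succ = D.L (y k.succ) + y k.castSucc := rfl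

lemma negpow (j : ℕ) (x : D.W) : ((-D.L) ^ j) x = (-1 : ℚ) ^ j • (D.L ^ j) x := by
  rw [neg_pow]
  induction j generalizing x with
  | zero => simp
  | succ j ih => 
      rw [pow_succ (-1 : ℚ), pow_succ D.L, pow_succ (-1 : Module.End ℚ D.W)]
      have := ih (D.L x)
      simp only [Module.End.mul_apply] at this ⊢
      rw [LinearMap.neg_apply, Module.End.one_apply, map_neg, this]
      simp

/-- the element of the kernel with top coefficient `x` -/
def fromTop (N : ℕ) (x : D.W) : Fin (N + 1) → D.W := fun k => ((-D.L) ^ (N - (k : ℕ))) x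

lemma fromTop_last (N : ℕ) (x : D.W) : D.fromTop N x (Fin.last N) = x := by
  simp [fromTop]

lemma lefP_fromTop_succ (N : ℕ) (x : D.W) (k : Fin N) : D.lefP N (D.fromTop N x) k.succ = 0 := by
  rw [lefP_succ]
  unfold fromTop
  have e : N - ((k.castSucc : Fin (N + 1)) : ℕ) = N - ((k.succ : Fin (N + 1)) : ℕ) + 1 := by
    have := k.isLt
    simp
    omega
  rw [e, pow_succ', Module.End.mul_apply, LinearMap.neg_apply, add_neg_cancel]

lemma lefP_fromTop_zero (N : ℕ) (x : D.W) :
    D.lefP N (D.fromTop N x) 0 = (-1 : ℚ) ^ N • (D.L ^ (N + 1)) x := by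
  rw [lefP_zero]
  unfold fromTop
  rw [Fin.val_zero, Nat.sub_zero, negpow, map_smul, pow_succ', Module.End.mul_apply]

lemma eq_fromTop (N : ℕ) (y : Fin (N + 1) → D.W)
    (h : ∀ k : Fin N, D.lefP N y k.succ = 0) : y = D.fromTop N (y (Fin.last N)) := by
  have key : ∀ j (hj : j ≤ N), y ⟨N - j, by omega⟩ = ((-D.L) ^ j) (y (Fin.last N)) := by
    intro j
    induction j with
    | zero =>
        intro _
        rw [pow_zero, Module.End.one_apply]
        rfl
    | succ j ih =>
        intro hj
        have h1 := h ⟨N - (j + 1), by omega⟩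
        rw [lefP_succ] at h1
        have e1 : (Fin.succ ⟨N - (j + 1), by omega⟩ : Fin (N + 1)) = ⟨N - j, by omega⟩ := by
          ext
          simp
          omega
        rw [e1, ih (by omega)] at h1
        have e2 : (Fin.castSucc ⟨N - (j + 1), by omega⟩ : Fin (N + 1)) = ⟨N - (j + 1), by omega⟩ :=
          rfl
        rw [e2] at h1
        rw [pow_succ', Module.End.mul_apply, LinearMap.neg_apply]
        exact eq_neg_of_add_eq_zero_right h1
  funext k
  have := key (N - k) (by omega)
  have e : (⟨N - (N - (k : ℕ)), by omega⟩ : Fin (N + 1)) = k := by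
    ext
    have := k.isLt
    simp
    omega
  rw [e] at this
  exact this

lemma fromTop_mem (N : ℕ) (a : ℤ) (x : D.W) (hx : x ∈ D.gr a) :
    D.fromTop N x ∈ D.grP N (a + N) := by
  intro k
  change ((-D.L) ^ (N - (k : ℕ))) x ∈ _
  rw [negpow]
  refine Submodule.smul_mem _ _ ?_
  have := D.pow_mem (N - (k : ℕ)) a x hx
  have e : a + ((N - (k : ℕ) : ℕ) : ℤ) = a + N - ((k : ℕ) : ℤ) := by
    have := k.isLt
    rw [Nat.cast_sub (by omega)]
    ring
  rwa [e] at this

/-- a partial solution with zero top coefficient -/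
lemma exists_partial (N : ℕ) (a : ℤ) (z : Fin (N + 1) → D.W)
    (hz : z ∈ D.grP N (a + N + 1)) : ∃ y : Fin (N + 1) → D.W,
      y ∈ D.grP N (a + N) ∧ ∀ k : Fin N, D.lefP N y k.succ = z k.succ := by
  let zz : ℕ → D.W := fun k => if h : k < N + 1 then z ⟨k, h⟩ else 0
  let g : ℕ → D.W := fun s => Nat.rec 0 (fun s r => zz (N - s) - D.L r) s
  have g0 : g 0 = 0 := rfl
  have gs : ∀ s, g (s + 1) = zz (N - s) - D.L (g s) := fun s => rfl
  have hg : ∀ s, s ≤ N → g s ∈ D.gr (a + s) := by
    intro s
    induction s with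
    | zero => intro _; rw [g0]; exact zero_mem _
    | succ s ih =>
        intro hs
        rw [gs]
        refine sub_mem ?_ ?_
        · have h1 : N - s < N + 1 := by omega
          change (if h : N - s < N + 1 then z ⟨N - s, h⟩ else 0) ∈ _
          rw [dif_pos h1]
          have h2 := hz ⟨N - s, h1⟩
          have e : a + N + 1 - ((((⟨N - s, h1⟩ : Fin (N + 1)) : ℕ)) : ℤ) = a + ((s + 1 : ℕ) : ℤ) := by
            change a + N + 1 - ((N - s : ℕ) : ℤ) = _
            rw [Nat.cast_sub (by omega)]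
            push_cast
            ring
          rwa [e] at h2
        · have := D.L_mem _ _ (ih (by omega))
          have e : a + (s : ℤ) + 1 = a + ((s + 1 : ℕ) : ℤ) := by
            push_cast
            ring
          rwa [e] at this
  refine ⟨fun k => g (N - k), ?_, ?_⟩
  · intro k
    have hk := k.isLt
    have := hg (N - k) (by omega)
    have e : a + ((N - (k : ℕ) : ℕ) : ℤ) = a + N - ((k : ℕ) : ℤ) := by
      rw [Nat.cast_sub (by omega)]
      ring
    rwa [e] at this
  · intro k
    rw [lefP_succ]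
    have hk := k.isLt
    change D.L (g (N - ((k.succ : Fin (N + 1)) : ℕ))) + g (N - ((k.castSucc : Fin (N + 1)) : ℕ)) = _
    have e : N - ((k.castSucc : Fin (N + 1)) : ℕ) = N - ((k.succ : Fin (N + 1)) : ℕ) + 1 := by
      simp
      omega
    rw [e, gs, add_sub_cancel]
    have e2 : N - (N - ((k.succ : Fin (N + 1)) : ℕ)) = (k.succ : Fin (N + 1)) := by
      simp
      omega
    rw [e2]
    change (if h : ((k.succ : Fin (N + 1)) : ℕ) < N + 1 then z ⟨_, h⟩ else 0) = _
    rw [dif_pos k.succ.isLt]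

lemma bij_iff (N : ℕ) (a : ℤ) :
    Set.BijOn (fun x => (D.L ^ (N + 1)) x) (D.gr a) (D.gr (a + N + 1)) ↔
    Set.BijOn (fun y => D.lefP N y) (D.grP N (a + N)) (D.grP N (a + N + 1)) := by
  have hmaps : Set.MapsTo (fun y => D.lefP N y) (D.grP N (a + N)) (D.grP N (a + N + 1)) :=
    fun y hy => D.lefP_mem N _ y hy
  have hmaps0 : Set.MapsTo (fun x => (D.L ^ (N + 1)) x) (D.gr a) (D.gr (a + N + 1)) := by
    intro x hx
    have := D.pow_mem (N + 1) a x hx
    have e : a + ((N + 1 : ℕ) : ℤ) = a + N + 1 := by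
      push_cast
      ring
    rwa [e] at this
  have hsgn : ((-1 : ℚ) ^ N) * ((-1 : ℚ) ^ N) = 1 := by
    rw [← mul_pow]
    norm_num
  constructor
  · intro h
    refine ⟨hmaps, ?_, ?_⟩
    · intro y hy y' hy' hyy
      have h0 : D.lefP N (y - y') = 0 := by
        rw [map_sub, sub_eq_zero]
        exact hyy
      have hd : y - y' ∈ D.grP N (a + N) := sub_mem hy hy'
      have h1 := D.eq_fromTop N (y - y') (fun k => by rw [h0]; rfl)
      have h2 : (D.L ^ (N + 1)) ((y - y') (Fin.last N)) = 0 := by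
        have h3 := D.lefP_fromTop_zero N ((y - y') (Fin.last N))
        rw [← h1, h0] at h3
        have h4 : (-1 : ℚ) ^ N • (D.L ^ (N + 1)) ((y - y') (Fin.last N)) = 0 := h3.symm
        rcases smul_eq_zero.1 h4 with h5 | h5
        · exact absurd h5 (pow_ne_zero _ (by norm_num))
        · exact h5
      have h6 : (y - y') (Fin.last N) ∈ D.gr a := by
        have := hd (Fin.last N)
        have e : a + N - (((Fin.last N : Fin (N + 1)) : ℕ) : ℤ) = a := by simp
        rwa [e] at this
      have h7 : (y - y') (Fin.last N) = 0 := by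
        refine h.2.1 h6 (zero_mem _) ?_
        simp only [map_zero]
        exact h2
      have h8 : y - y' = 0 := by
        rw [h1, h7]
        funext k
        simp [fromTop]
      exact sub_eq_zero.1 h8
    · intro z hz
      obtain ⟨y, hy, hyz⟩ := D.exists_partial N a z hz
      -- the remaining coefficient
      have h1 : z 0 - D.lefP N y 0 ∈ D.gr (a + N + 1) := by
        refine sub_mem ?_ ?_
        · have := hz 0
          simpa using this
        · have := hmaps hy 0
          simpa using this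
      obtain ⟨x, hx, hxz⟩ := h.2.2 h1
      refine ⟨y + (-1 : ℚ) ^ N • D.fromTop N x, ?_, ?_⟩
      · exact add_mem hy (Submodule.smul_mem _ _ (D.fromTop_mem N a x hx))
      · simp only [map_add, map_smul]
        funext k
        refine Fin.cases ?_ (fun k => ?_) k
        · rw [Pi.add_apply, Pi.smul_apply, lefP_fromTop_zero, smul_smul, hsgn, one_smul]
          have hxz' : (D.L ^ (N + 1)) x = z 0 - D.lefP N y 0 := hxz
          rw [hxz']
          abel
        · rw [Pi.add_apply, Pi.smul_apply, lefP_fromTop_succ, smul_zero, add_zero, hyz]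
  · intro h
    refine ⟨hmaps0, ?_, ?_⟩
    · intro x hx x' hx' hxx
      have h0 : (D.L ^ (N + 1)) (x - x') = 0 := by
        rw [map_sub, sub_eq_zero]
        exact hxx
      have h1 : D.fromTop N (x - x') = 0 := by
        refine h.2.1 (D.fromTop_mem N a _ (sub_mem hx hx')) (zero_mem _) ?_
        simp only [map_zero]
        funext k
        refine Fin.cases ?_ (fun k => ?_) k
        · rw [lefP_fromTop_zero, h0, smul_zero]
          rfl
        · rw [lefP_fromTop_succ]
          rfl
      have h2 := D.fromTop_last N (x - x')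
      rw [h1] at h2
      exact sub_eq_zero.1 h2.symm
    · intro z hz
      have hz' : (Fin.cons z 0 : Fin (N + 1) → D.W) ∈ D.grP N (a + N + 1) := by
        intro k
        refine Fin.cases ?_ (fun k => ?_) k
        · simpa using hz
        · exact zero_mem _
      obtain ⟨y, hy, hyz⟩ := h.2.2 hz'
      have hyz' : D.lefP N y = (Fin.cons z 0 : Fin (N + 1) → D.W) := hyz
      have h1 := D.eq_fromTop N y (fun k => by rw [hyz']; rfl)
      have h2 : y (Fin.last N) ∈ D.gr a := by
        have := hy (Fin.last N)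
        have e : a + N - (((Fin.last N : Fin (N + 1)) : ℕ) : ℤ) = a := by simp
        rwa [e] at this
      refine ⟨(-1 : ℚ) ^ N • y (Fin.last N), Submodule.smul_mem _ _ h2, ?_⟩
      have h3 := D.lefP_fromTop_zero N (y (Fin.last N))
      rw [← h1, hyz'] at h3
      simp only [map_smul]
      exact h3.symm

/-- Q1 in codimension `i` is bijectivity of the Lefschetz operator in middle codimension -/
theorem lefschetz_iff (i : ℕ) (hi : 2 * i ≤ D.dim) :
    D.LefschetzAt i ↔ (D.timesP (D.dim - 2 * i)).LefschetzAt (D.dim - i) := by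
  have h := D.bij_iff (D.dim - 2 * i) i
  unfold LefschetzAt
  have e1 : D.dim + 1 - 2 * i = D.dim - 2 * i + 1 := by omega
  have e2 : (D.timesP (D.dim - 2 * i)).dim + 1 - 2 * (D.dim - i) = 1 := by
    change D.dim + (D.dim - 2 * i) + 1 - 2 * (D.dim - i) = 1
    omega
  have e3 : (i : ℤ) + ((D.dim - 2 * i : ℕ) : ℤ) + 1 = (D.dim : ℤ) + 1 - i := by
    rw [Nat.cast_sub hi]
    push_cast
    ring
  have e4 : ((D.dim - i : ℕ) : ℤ) = (i : ℤ) + ((D.dim - 2 * i : ℕ) : ℤ) := by
    rw [Nat.cast_sub hi, Nat.cast_sub (by omega)]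
    push_cast
    ring
  have e5 : ((D.timesP (D.dim - 2 * i)).dim : ℤ) + 1 - ((D.dim - i : ℕ) : ℤ)
      = (i : ℤ) + ((D.dim - 2 * i : ℕ) : ℤ) + 1 := by
    change ((D.dim + (D.dim - 2 * i) : ℕ) : ℤ) + 1 - ((D.dim - i : ℕ) : ℤ) = _
    rw [e4]
    push_cast
    rw [Nat.cast_sub hi]
    push_cast
    ring
  rw [e1, e2, e5, e4, ← e3]
  simp only [pow_one]
  exact h

lemma htP_fromTop (N : ℕ) (x : D.W) :
    D.htP N (D.fromTop N x) (D.fromTop N x) = (-1) ^ N * ((N : ℝ) + 1) * D.ht x ((D.L ^ N) x) := by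
  rw [htP_apply]
  have h : ∀ k : Fin (N + 1), D.ht (D.fromTop N x k) (D.fromTop N x (Fin.rev k))
      = (-1) ^ N * D.ht x ((D.L ^ N) x) := by
    intro k
    have hk := k.isLt
    unfold fromTop
    rw [negpow, negpow]
    have e1 : N - ((Fin.rev k : Fin (N + 1)) : ℕ) = (k : ℕ) := by
      rw [Fin.val_rev]
      omega
    rw [e1]
    simp only [map_smul, LinearMap.smul_apply]
    rw [ht_pow, ← Module.End.mul_apply, ← pow_add]
    have e2 : N - (k : ℕ) + k = N := by omega
    rw [e2, smul_smul, ← pow_add]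
    have e3 : (k : ℕ) + (N - (k : ℕ)) = N := by omega
    rw [e3]
    have e4 : ∀ (r : ℝ), ((-1 : ℚ) ^ N) • r = (-1) ^ N * r := by
      intro r
      rw [Rat.smul_def]
      push_cast
      rfl
    exact e4 _
  rw [Finset.sum_congr rfl fun k _ => h k]
  simp
  ring

/-- Q2 in codimension `i` is Q2 in the middle codimension of the product with `P^(n + 1 - 2 i)` -/
theorem index_iff (i : ℕ) (hi : 2 * i ≤ D.dim + 1) :
    D.IndexAt i ↔ (D.timesP (D.dim + 1 - 2 * i)).IndexAt (D.dim + 1 - i) := by
  set N := D.dim + 1 - 2 * i with hN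
  have e1 : D.dim + 2 - 2 * i = N + 1 := by omega
  have e2 : (D.timesP N).dim + 2 - 2 * (D.dim + 1 - i) = 1 := by
    change D.dim + N + 2 - 2 * (D.dim + 1 - i) = 1
    omega
  have e3 : (D.timesP N).dim + 1 - 2 * (D.dim + 1 - i) = 0 := by
    change D.dim + N + 1 - 2 * (D.dim + 1 - i) = 0
    omega
  have e4 : ((D.dim + 1 - i : ℕ) : ℤ) = (i : ℤ) + N := by
    have : D.dim + 1 - i = i + N := by omega
    rw [this]
    push_cast
    rfl
  have hpos : (0 : ℝ) < (N : ℝ) + 1 := by positivity
  have hsgn : (-1 : ℝ) ^ (D.dim + 1 - i) * (-1) ^ N = (-1) ^ i := by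
    rw [← pow_add]
    have : D.dim + 1 - i + N = i + 2 * N := by omega
    rw [this, pow_add, pow_mul]
    norm_num
  unfold IndexAt
  rw [e1, e2, e3, e4]
  simp only [pow_one, pow_zero, Module.End.one_apply]
  constructor
  · intro h y hy hy0 hLy
    change D.lefP N y = 0 at hLy
    have hLy' : D.lefP N y = 0 := hLy
    have h1 := D.eq_fromTop N y (fun k => by rw [hLy']; rfl)
    have h2 : y (Fin.last N) ∈ D.gr i := by
      have := hy (Fin.last N)
      have e : (i : ℤ) + N - (((Fin.last N : Fin (N + 1)) : ℕ) : ℤ) = i := by simp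
      rwa [e] at this
    have h3 : y (Fin.last N) ≠ 0 := by
      intro h0
      apply hy0
      rw [h1, h0]
      funext k
      change ((-D.L) ^ (N - (k : ℕ))) (0 : D.W) = 0
      rw [map_zero]
    have h4 : (D.L ^ (N + 1)) (y (Fin.last N)) = 0 := by
      have h5 := D.lefP_fromTop_zero N (y (Fin.last N))
      rw [← h1, hLy'] at h5
      rcases smul_eq_zero.1 h5.symm with h6 | h6
      · exact absurd h6 (pow_ne_zero _ (by norm_num))
      · exact h6
    have h7 := h _ h2 h3 h4
    change 0 < (-1 : ℝ) ^ (D.dim + 1 - i) * D.htP N y y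
    rw [h1, htP_fromTop]
    have : (-1 : ℝ) ^ (D.dim + 1 - i) * ((-1) ^ N * ((N : ℝ) + 1) *
        D.ht (y (Fin.last N)) ((D.L ^ N) (y (Fin.last N))))
        = ((N : ℝ) + 1) * ((-1) ^ i * D.ht (y (Fin.last N)) ((D.L ^ N) (y (Fin.last N)))) := by
      rw [← hsgn]
      ring
    rw [this]
    exact mul_pos hpos h7
  · intro h x hx hx0 hLx
    have h1 : D.fromTop N x ≠ 0 := by
      intro h0
      apply hx0
      rw [← D.fromTop_last N x, h0]
      rfl
    have h2 : D.lefP N (D.fromTop N x) = 0 := by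
      funext k
      refine Fin.cases ?_ (fun k => ?_) k
      · rw [lefP_fromTop_zero, hLx, smul_zero]
        rfl
      · rw [lefP_fromTop_succ]
        rfl
    have h3 := h (D.fromTop N x) (D.fromTop_mem N i x hx) h1 h2
    have h4 : 0 < (-1 : ℝ) ^ (D.dim + 1 - i) * D.htP N (D.fromTop N x) (D.fromTop N x) := h3
    rw [htP_fromTop] at h4
    have : (-1 : ℝ) ^ (D.dim + 1 - i) * ((-1) ^ N * ((N : ℝ) + 1) *
        D.ht x ((D.L ^ N) x)) = ((N : ℝ) + 1) * ((-1) ^ i * D.ht x ((D.L ^ N) x)) := by
      rw [← hsgn]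
      ring
    rw [this] at h4
    exact (pos_iff_pos_of_mul_pos h4).1 hpos

/-- Q2 implies Q1 when the ranks agree -/
theorem lefschetz_of_index (i : ℕ) (hi : 2 * i ≤ D.dim + 1)
    [FiniteDimensional ℚ (D.gr i)] [FiniteDimensional ℚ (D.gr (D.dim + 1 - i))]
    (hr : Module.finrank ℚ (D.gr (D.dim + 1 - i)) ≤ Module.finrank ℚ (D.gr i))
    (h : D.IndexAt i) : D.LefschetzAt i := by
  have hmaps : Set.MapsTo (fun x => (D.L ^ (D.dim + 1 - 2 * i)) x) (D.gr i)
      (D.gr (D.dim + 1 - i)) := by
    intro x hx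
    have := D.pow_mem (D.dim + 1 - 2 * i) i x hx
    have e : (i : ℤ) + ((D.dim + 1 - 2 * i : ℕ) : ℤ) = D.dim + 1 - i := by
      rw [Nat.cast_sub hi]
      push_cast
      ring
    rwa [e] at this
  let f : D.gr i →ₗ[ℚ] D.gr (D.dim + 1 - i) :=
    (D.L ^ (D.dim + 1 - 2 * i)).restrict (fun x hx => hmaps hx)
  have hinj : Function.Injective f := by
    rw [injective_iff_map_eq_zero]
    intro x hx
    have h0 : (D.L ^ (D.dim + 1 - 2 * i)) (x : D.W) = 0 := congrArg Subtype.val hx
    by_contra hne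
    have h1 : (x : D.W) ≠ 0 := fun h0 => hne (Subtype.ext h0)
    have h2 : (D.L ^ (D.dim + 2 - 2 * i)) (x : D.W) = 0 := by
      have e : D.dim + 2 - 2 * i = D.dim + 1 - 2 * i + 1 := by omega
      rw [e, pow_succ', Module.End.mul_apply, h0, map_zero]
    have h3 := h x x.2 h1 h2
    rw [h0, map_zero, mul_zero] at h3
    exact lt_irrefl _ h3
  have hsurj : Function.Surjective f := by
    have h1 : Module.finrank ℚ (D.gr i) ≤ Module.finrank ℚ (D.gr (D.dim + 1 - i)) :=
      LinearMap.finrank_le_finrank_of_injective hinj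
    exact (LinearMap.injective_iff_surjective_of_finrank_eq_finrank (le_antisymm h1 hr)).1 hinj
  refine ⟨hmaps, ?_, ?_⟩
  · intro x hx y hy hxy
    have := @hinj ⟨x, hx⟩ ⟨y, hy⟩ (Subtype.ext hxy)
    exact congrArg Subtype.val this
  · intro z hz
    obtain ⟨x, hx⟩ := hsurj ⟨z, hz⟩
    exact ⟨x, x.2, congrArg Subtype.val hx⟩

end HeightModule

end Beil
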