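import Mathlib
import Pool.Agent.Helper70.Beil.Stab
import Pool.Agent.Helper70.Beil.Index

/-!
# Change of polarization and domination
-/

set_option autoImplicit false

open scoped BigOperators

namespace Beil

universe u

namespace HeightModule

variable (D : HeightModule.{u})

/-- Beilinson's conjectures Q1 and Q2 in all codimensions `i ≥ 1` -/
def Conj : Prop := ∀ i : ℕ, 1 ≤ i → 2 * i ≤ D.dim + 1 → D.LefschetzAt i ∧ D.IndexAt i

/-- Q1 gives a linear equivalence -/
noncomputable def lefEquiv (i : ℕ) (h : D.LefschetzAt i) :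
    D.gr (i : ℤ) ≃ₗ[ℚ] D.gr (D.dim + 1 - i) :=
  LinearEquiv.ofBijective
    ((D.L ^ (D.dim + 1 - 2 * i)).restrict (fun x hx => h.1 hx))
    ⟨fun x y hxy => Subtype.ext (h.2.1 x.2 y.2 (congrArg Subtype.val hxy)),
      fun z => by
        obtain ⟨x, hx, hxz⟩ := h.2.2 z.2
        exact ⟨⟨x, hx⟩, Subtype.ext hxz⟩⟩

/-- Q1 in the middle codimension is empty -/
lemma lefschetzAt_middle (m : ℕ) (hm : D.dim + 1 = 2 * m) : D.LefschetzAt m := by
  have e1 : D.dim + 1 - 2 * m = 0 := by omega
  have e2 : (D.dim : ℤ) + 1 - m = m := by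
    have : ((D.dim + 1 : ℕ) : ℤ) = ((2 * m : ℕ) : ℤ) := by rw [hm]
    push_cast at this
    linarith
  unfold LefschetzAt
  rw [e1, e2]
  simp only [pow_zero, Module.End.one_apply]
  exact Set.bijOn_id _

lemma lefschetzAt_zero (h0 : D.gr 0 = ⊥) (h1 : D.gr (D.dim + 1) = ⊥) : D.LefschetzAt 0 := by
  unfold LefschetzAt
  rw [Nat.cast_zero, sub_zero, h0, h1]
  refine ⟨?_, ?_, ?_⟩
  · intro x hx
    have hx0 : x = 0 := (Submodule.mem_bot ℚ).1 hx
    rw [hx0]
    simp
  · intro x hx y hy _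
    have hx0 : x = 0 := (Submodule.mem_bot ℚ).1 hx
    have hy0 : y = 0 := (Submodule.mem_bot ℚ).1 hy
    rw [hx0, hy0]
  · intro x hx
    have hx0 : x = 0 := (Submodule.mem_bot ℚ).1 hx
    exact ⟨0, zero_mem _, by rw [hx0]; simp⟩

lemma indexAt_zero (h0 : D.gr 0 = ⊥) : D.IndexAt 0 := by
  intro x hx hx0
  rw [Nat.cast_zero, h0] at hx
  exact absurd ((Submodule.mem_bot ℚ).1 hx) hx0

/-- **Change of polarization** in odd dimension -/
theorem conj_withL (L' : D.W →ₗ[ℚ] D.W) (hL1 : ∀ i, ∀ x ∈ D.gr i, L' x ∈ D.gr (i + 1))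
    (hL2 : ∀ x y, D.ht (L' x) y = D.ht x (L' y)) (m : ℕ) (hm : D.dim + 1 = 2 * m)
    (h0 : D.gr 0 = ⊥) (hn : D.gr (D.dim + 1) = ⊥)
    (hfin : ∀ i < m, FiniteDimensional ℚ (D.gr (i : ℤ)))
    (h : D.Conj) (h2 : ∀ i, 1 ≤ i → i < m → (D.withL L' hL1 hL2).IndexAt i) :
    (D.withL L' hL1 hL2).Conj := by
  have hQ1 : ∀ i < m, D.LefschetzAt i := by
    intro i hi
    rcases Nat.eq_zero_or_pos i with rfl | hpos
    · exact D.lefschetzAt_zero h0 hn
    · exact (h i hpos (by omega)).1
  have hQ2 : ∀ i < m, D.IndexAt i := by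
    intro i hi
    rcases Nat.eq_zero_or_pos i with rfl | hpos
    · exact D.indexAt_zero h0
    · exact (h i hpos (by omega)).2
  have hQ2' : ∀ i < m, (D.withL L' hL1 hL2).IndexAt i := by
    intro i hi
    rcases Nat.eq_zero_or_pos i with rfl | hpos
    · exact (D.withL L' hL1 hL2).indexAt_zero h0
    · exact h2 i hpos hi
  have hQ1' : ∀ i < m, (D.withL L' hL1 hL2).LefschetzAt i := by
    intro i hi
    have hf := hfin i hi
    have e := D.lefEquiv i (hQ1 i hi)
    have hf2 : FiniteDimensional ℚ (D.gr (D.dim + 1 - i)) := e.finiteDimensional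
    have hr : Module.finrank ℚ (D.gr (D.dim + 1 - i)) ≤ Module.finrank ℚ (D.gr (i : ℤ)) :=
      e.finrank_eq.symm.le
    have hf' : FiniteDimensional ℚ ((D.withL L' hL1 hL2).gr (i : ℤ)) := hf
    have hf2' : FiniteDimensional ℚ
      ((D.withL L' hL1 hL2).gr ((D.withL L' hL1 hL2).dim + 1 - i)) := hf2
    exact (D.withL L' hL1 hL2).lefschetz_of_index i (by change 2 * i ≤ D.dim + 1; omega) hr
      (hQ2' i hi)
  intro i hi1 hi2
  have hi2' : 2 * i ≤ D.dim + 1 := hi2
  rcases lt_or_ge i m with him | him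
  · exact ⟨hQ1' i him, hQ2' i him⟩
  · have him' : i = m := by omega
    subst him'
    refine ⟨(D.withL L' hL1 hL2).lefschetzAt_middle i hm, ?_⟩
    exact D.index_of_index L' hL1 hL2 i h0 hm hfin hQ1 hQ2 hQ1' hQ2' (h i hi1 hi2').2

end HeightModule

/-- `E` is the height module of a threefold obtained from the one of `D` by blowing up smooth
curves and points: pull back of cycles is an isomorphism in codimensions 1 and 3 and compatible
with the height pairings, and in codimension 2 the new classes (from the Jacobians of the curves)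
are orthogonal to the old ones and have positive height. -/
structure IsBlowUp (D E : HeightModule.{u}) where
  pull : D.W →ₗ[ℚ] E.W
  inj : Function.Injective pull
  mem : ∀ i : ℤ, ∀ x ∈ D.gr i, pull x ∈ E.gr i
  ht_pull : ∀ x y, E.ht (pull x) (pull y) = D.ht x y
  surj1 : ∀ y ∈ E.gr 1, ∃ x ∈ D.gr 1, pull x = y
  surj3 : ∀ y ∈ E.gr 3, ∃ x ∈ D.gr 3, pull x = y
  new : Submodule ℚ E.W
  orth : ∀ x, ∀ y ∈ new, E.ht (pull x) y = 0
  pos : ∀ y ∈ new, y ≠ 0 → 0 < E.ht y y
  span : ∀ y ∈ E.gr 2, ∃ x ∈ D.gr 2, ∃ z ∈ new, pull x + z = y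

/-- `E` is the height module of a threefold with a generically finite surjective morphism `f` to
the threefold of `D`: pull back, push forward, projection formula; `M` is the intersection with
`f^* L`, which is nef and big, so that its square is negative definite on `gr 1`. -/
structure IsCover (E D : HeightModule.{u}) where
  pull : D.W →ₗ[ℚ] E.W
  push : E.W →ₗ[ℚ] D.W
  mem : ∀ i : ℤ, ∀ x ∈ D.gr i, pull x ∈ E.gr i
  mem' : ∀ i : ℤ, ∀ x ∈ E.gr i, push x ∈ D.gr i
  deg : ℚ
  deg_pos : 0 < deg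
  push_pull : ∀ x, push (pull x) = deg • x
  ht_pull : ∀ x y, E.ht (pull x) y = D.ht x (push y)
  M : E.W →ₗ[ℚ] E.W
  M_mem : ∀ i : ℤ, ∀ x ∈ E.gr i, M x ∈ E.gr (i + 1)
  M_pull : ∀ x, M (pull x) = pull (D.L x)
  push_M : ∀ x, push (M x) = D.L (push x)
  ht_M : ∀ x y, E.ht (M x) y = E.ht x (M y)
  neg : ∀ x ∈ E.gr 1, x ≠ 0 → E.ht x (M (M x)) < 0

/-- **Domination**: Beilinson's conjectures for a threefold pass to every threefold dominated by
it. -/
theorem conj_of_dominated (D' E D : HeightModule.{u}) (hD' : D'.dim = 3) (hD : D.dim = 3)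
    [FiniteDimensional ℚ (D'.gr 1)] (b : IsBlowUp D' E) (f : IsCover E D) (h : D'.Conj) :
    D.Conj := by
  obtain ⟨hQ1, -⟩ := h 1 le_rfl (by omega)
  obtain ⟨-, hQ2⟩ := h 2 (by omega) (by omega)
  have hb : Set.BijOn (fun x => D'.L (D'.L x)) (D'.gr 1) (D'.gr 3) := by
    unfold HeightModule.LefschetzAt at hQ1
    rw [hD'] at hQ1
    have e : ((3 : ℕ) : ℤ) + 1 - ((1 : ℕ) : ℤ) = 3 := by norm_num
    rw [e] at hQ1
    have e2 : (fun x => (D'.L ^ (3 + 1 - 2 * 1)) x) = fun x => D'.L (D'.L x) := by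
      funext x
      have : 3 + 1 - 2 * 1 = 2 := rfl
      rw [this, pow_two, Module.End.mul_apply]
    rw [e2] at hQ1
    exact hQ1
  have hpos2 : ∀ x ∈ D'.gr 2, x ≠ 0 → D'.L x = 0 → 0 < D'.ht x x := by
    intro x hx hx0 hLx
    have e1 : D'.dim + 2 - 2 * 2 = 1 := by omega
    have e2 : D'.dim + 1 - 2 * 2 = 0 := by omega
    have := hQ2 x hx hx0 (by rw [e1, pow_one]; exact hLx)
    rw [e2, pow_zero, Module.End.one_apply] at this
    simpa using this
  -- finite dimension and dimensions on `E`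
  have hmap1 : E.gr 1 = (D'.gr 1).map b.pull := by
    apply le_antisymm
    · intro y hy
      obtain ⟨x, hx, rfl⟩ := b.surj1 y hy
      exact Submodule.mem_map_of_mem hx
    · rintro _ ⟨x, hx, rfl⟩
      exact b.mem 1 x hx
  have hmap3 : E.gr 3 = ((D'.gr 1).map (D'.L ∘ₗ D'.L)).map b.pull := by
    apply le_antisymm
    · intro y hy
      obtain ⟨x, hx, rfl⟩ := b.surj3 y hy
      obtain ⟨z, hz, rfl⟩ := hb.2.2 hx
      exact Submodule.mem_map_of_mem ⟨z, hz, rfl⟩
    · rintro _ ⟨_, ⟨z, hz, rfl⟩, rfl⟩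
      exact b.mem 3 _ (hb.1 hz)
  have hfin1 : FiniteDimensional ℚ (E.gr 1) := by rw [hmap1]; infer_instance
  have hfin3 : FiniteDimensional ℚ (E.gr 3) := by rw [hmap3]; infer_instance
  have hMM : ∀ x ∈ E.gr 1, f.M (f.M x) ∈ E.gr 3 := by
    intro x hx
    exact f.M_mem 2 _ (f.M_mem 1 x hx)
  have hMinj : ∀ x ∈ E.gr 1, f.M (f.M x) = 0 → x = 0 := by
    intro x hx hM
    by_contra hx0
    have := f.neg x hx hx0
    rw [hM, map_zero] at this
    exact lt_irrefl _ this
  have hd1 : Module.finrank ℚ (E.gr 1) = Module.finrank ℚ (D'.gr 1) := by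
    rw [hmap1]
    exact (LinearEquiv.finrank_eq (Submodule.equivMapOfInjective b.pull b.inj (D'.gr 1))).symm
  have hd3 : Module.finrank ℚ (E.gr 3) ≤ Module.finrank ℚ (D'.gr 1) := by
    rw [hmap3]
    exact (Submodule.finrank_map_le _ _).trans (Submodule.finrank_map_le _ _)
  -- `M ^ 2` is onto
  have hMsurj : ∀ z ∈ E.gr 3, ∃ x ∈ E.gr 1, f.M (f.M x) = z := by
    let g : E.gr 1 →ₗ[ℚ] E.gr 3 := (f.M ∘ₗ f.M).restrict (fun x hx => hMM x hx)
    have hg : Function.Injective g := by
      rw [injective_iff_map_eq_zero]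
      intro x hx
      exact Subtype.ext (hMinj x x.2 (congrArg Subtype.val hx))
    have h1 : Module.finrank ℚ (E.gr 1) ≤ Module.finrank ℚ (E.gr 3) :=
      LinearMap.finrank_le_finrank_of_injective hg
    have h2 : Function.Surjective g :=
      (LinearMap.injective_iff_surjective_of_finrank_eq_finrank (le_antisymm h1
        (hd3.trans hd1.symm.le))).1 hg
    intro z hz
    obtain ⟨x, hx⟩ := h2 ⟨z, hz⟩
    exact ⟨x, x.2, congrArg Subtype.val hx⟩
  have hdeg : (0 : ℝ) < (f.deg : ℝ) := by exact_mod_cast f.deg_pos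
  have hpull0 : ∀ x, f.pull x = 0 → x = 0 := by
    intro x hx
    have := f.push_pull x
    rw [hx, map_zero] at this
    rcases smul_eq_zero.1 this.symm with h0 | h0
    · exact absurd h0 f.deg_pos.ne'
    · exact h0
  have hht : ∀ x y, E.ht (f.pull x) (f.pull y) = f.deg * D.ht x y := by
    intro x y
    rw [f.ht_pull, f.push_pull, map_smul, Rat.smul_def]
  have hneg1 : ∀ x ∈ D.gr 1, x ≠ 0 → D.ht x (D.L (D.L x)) < 0 := by
    intro x hx hx0
    have h1 := f.neg (f.pull x) (f.mem 1 x hx) (fun h0 => hx0 (hpull0 x h0))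
    rw [f.M_pull, f.M_pull, hht] at h1
    by_contra hcon
    push Not at hcon
    exact absurd h1 (not_lt.2 (mul_nonneg hdeg.le hcon))
  -- the conclusion
  have hL1 : D.LefschetzAt 1 := by
    unfold HeightModule.LefschetzAt
    rw [hD]
    have e : ((3 : ℕ) : ℤ) + 1 - ((1 : ℕ) : ℤ) = 3 := by norm_num
    rw [e]
    have e2 : (fun x => (D.L ^ (3 + 1 - 2 * 1)) x) = fun x => D.L (D.L x) := by
      funext x
      have : 3 + 1 - 2 * 1 = 2 := rfl
      rw [this, pow_two, Module.End.mul_apply]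
    rw [e2]
    refine ⟨?_, ?_, ?_⟩
    · intro x hx
      exact D.L_mem 2 _ (D.L_mem 1 x hx)
    · intro x hx y hy hxy
      by_contra hne
      have h1 : x - y ≠ 0 := sub_ne_zero.2 hne
      have h2 := hneg1 (x - y) (sub_mem hx hy) h1
      have h3 : D.L (D.L (x - y)) = 0 := by
        rw [map_sub, map_sub, sub_eq_zero]
        exact hxy
      rw [h3, map_zero] at h2
      exact lt_irrefl _ h2
    · intro z hz
      obtain ⟨x, hx, hxz⟩ := hMsurj (f.pull z) (f.mem 3 z hz)
      refine ⟨f.deg⁻¹ • f.push x, Submodule.smul_mem _ _ (f.mem' 1 x hx), ?_⟩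
      simp only [map_smul]
      rw [← f.push_M, ← f.push_M, hxz, f.push_pull, smul_smul,
        inv_mul_cancel₀ f.deg_pos.ne', one_smul]
  have hI1 : D.IndexAt 1 := by
    intro x hx hx0 _
    have e2 : D.dim + 1 - 2 * 1 = 2 := by omega
    rw [e2, pow_two, Module.End.mul_apply]
    have := hneg1 x hx hx0
    linarith
  have hI2 : D.IndexAt 2 := by
    intro v hv hv0 hLv
    have e1 : D.dim + 2 - 2 * 2 = 1 := by omega
    have e2 : D.dim + 1 - 2 * 2 = 0 := by omega
    rw [e1, pow_one] at hLv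
    rw [e2, pow_zero, Module.End.one_apply]
    let K : Submodule ℚ D'.W := D'.gr 2 ⊓ LinearMap.ker D'.L
    let T : Submodule ℚ E.W := K.map b.pull ⊔ b.new
    let U : Submodule ℚ E.W := ((D'.gr 1).map D'.L).map b.pull
    let B : Submodule ℚ E.W := (E.gr 1).map f.M
    have hUfin : FiniteDimensional ℚ U := by
      change FiniteDimensional ℚ (((D'.gr 1).map D'.L).map b.pull)
      infer_instance
    have hBfin : FiniteDimensional ℚ B := by
      change FiniteDimensional ℚ ((E.gr 1).map f.M)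
      infer_instance
    have hMB : ∀ w ∈ E.gr 1, f.M w = 0 → w = 0 := by
      intro w hw hMw
      refine hMinj w hw ?_
      rw [hMw, map_zero]
    have hBd : Module.finrank ℚ B = Module.finrank ℚ (E.gr 1) := by
      have hinj : Function.Injective (f.M.domRestrict (E.gr 1)) := by
        rw [injective_iff_map_eq_zero]
        intro x hx
        exact Subtype.ext (hMB x x.2 hx)
      have h2 := LinearMap.finrank_range_of_inj hinj
      rw [LinearMap.range_domRestrict] at h2
      exact h2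
    have hd : Module.finrank ℚ U ≤ Module.finrank ℚ B := by
      rw [hBd, hd1]
      exact (Submodule.finrank_map_le _ _).trans (Submodule.finrank_map_le _ _)
    have hBle : B ≤ E.gr 2 := by
      rintro _ ⟨w, hw, rfl⟩
      exact f.M_mem 1 w hw
    have hV : E.gr 2 ≤ T ⊔ U := by
      intro y hy
      obtain ⟨x, hx, z, hz, rfl⟩ := b.span y hy
      obtain ⟨w, hw, hwx⟩ := hb.2.2 (D'.L_mem 2 x hx)
      have hwx' : D'.L (D'.L w) = D'.L x := hwx
      have hk : x - D'.L w ∈ K := by
        refine ⟨sub_mem hx (D'.L_mem 1 w hw), ?_⟩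
        change D'.L (x - D'.L w) = 0
        rw [map_sub, hwx', sub_self]
      have h1 : b.pull (x - D'.L w) + z ∈ T :=
        Submodule.add_mem_sup (Submodule.mem_map_of_mem hk) hz
      have h2 : b.pull (D'.L w) ∈ U :=
        Submodule.mem_map_of_mem (Submodule.mem_map_of_mem hw)
      have h3 := Submodule.add_mem_sup h1 h2
      have h4 : b.pull (x - D'.L w) + z + b.pull (D'.L w) = b.pull x + z := by
        rw [map_sub]
        abel
      rwa [h4] at h3
    have hneg : ∀ x ∈ B, (1 : ℝ) * E.ht x x ≤ 0 := by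
      rintro _ ⟨w, hw, rfl⟩
      rw [one_mul, f.ht_M]
      by_cases hw0 : w = 0
      · rw [hw0]
        simp
      · exact (f.neg w hw hw0).le
    have hpos : ∀ x ∈ T, x ≠ 0 → 0 < (1 : ℝ) * E.ht x x := by
      intro x hx hx0
      rw [one_mul]
      obtain ⟨_, ⟨k, hk, rfl⟩, z, hz, rfl⟩ := Submodule.mem_sup.1 hx
      have h1 : E.ht (b.pull k + z) (b.pull k + z) = D'.ht k k + E.ht z z := by
        simp only [map_add, LinearMap.add_apply]
        rw [E.ht_symm z (b.pull k), b.orth k z hz, b.ht_pull]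
        ring
      rw [h1]
      by_cases hk0 : k = 0
      · have hz0 : z ≠ 0 := by
          rintro rfl
          apply hx0
          rw [hk0, map_zero, add_zero]
        have := b.pos z hz hz0
        rw [hk0]
        simpa using this
      · have h2 := hpos2 k hk.1 hk0 hk.2
        by_cases hz0 : z = 0
        · rw [hz0]
          simpa using h2
        · have := b.pos z hz hz0
          linarith
    have hvB : f.pull v ∉ B := by
      rintro ⟨w, hw, hwv⟩
      have h1 : f.M (f.M w) = 0 := by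
        rw [hwv, f.M_pull, hLv, map_zero]
      have h2 := hMinj w hw h1
      rw [h2, map_zero] at hwv
      exact hv0 (hpull0 v hwv.symm)
    have horth : ∀ x ∈ B, E.ht x (f.pull v) = 0 := by
      rintro _ ⟨w, hw, rfl⟩
      rw [f.ht_M, f.M_pull, hLv, map_zero, map_zero]
    have := HeightModule.pos_of_spaces (E.gr 2) E.ht E.ht_symm 1 B T U hBle hV hd hneg hpos
      (f.pull v) (f.mem 2 v hv) hvB horth
    rw [one_mul, hht] at this
    have h1 := (pos_iff_pos_of_mul_pos this).1 hdeg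
    simpa using h1
  intro i hi1 hi2
  rw [hD] at hi2
  have : i = 1 ∨ i = 2 := by omega
  rcases this with rfl | rfl
  · exact ⟨hL1, hI1⟩
  · exact ⟨D.lefschetzAt_middle 2 (by omega), hI2⟩

end Beil
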